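import Pool.Agent.Helper43.Fr.Goals

/-!
Packet REC of MP_c866d3_nt: the recursion for `a_n = C(2n,n) f_n`.
-/

namespace Pool.Agent.Helper43.Fr.PkREC

open Finset

/-- certificate polynomial -/
def PP (n k : ℤ) : ℤ :=
  -(14 * n ^ 3 + 74 * n ^ 2 + 128 * n + 72) + (27 * n ^ 2 + 93 * n + 78) * k
    - (18 * n + 30) * k ^ 2 + 4 * k ^ 3

/-- telescoping function -/
def GG (n : ℕ) : ℕ → ℤ
  | 0 => 0
  | k + 1 => PP n (k + 1) * ((n + 1).choose k : ℤ) ^ 3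

lemma rel1 (n j : ℕ) :
    ((j : ℤ) + 1) * ((n + 1).choose (j + 1) : ℤ) = ((n : ℤ) + 1 - j) * ((n + 1).choose j : ℤ) := by
  have h := Nat.choose_succ_right_eq (n + 1) j
  rcases le_or_gt j (n + 1) with hj | hj
  · have h2 : (((n + 1).choose (j + 1) * (j + 1) : ℕ) : ℤ) = (((n + 1).choose j * (n + 1 - j) : ℕ) : ℤ) := by
      rw [h]
    push_cast [Nat.cast_sub hj] at h2
    linarith
  · rw [Nat.choose_eq_zero_of_lt hj, Nat.choose_eq_zero_of_lt (by omega)]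
    simp

lemma rel2 (n k : ℕ) :
    ((n : ℤ) + 1) * (n.choose k : ℤ) = ((n : ℤ) + 1 - k) * ((n + 1).choose k : ℤ) := by
  have h := Nat.choose_mul_succ_eq n k
  rcases le_or_gt k (n + 1) with hj | hj
  · have h2 : ((n.choose k * (n + 1) : ℕ) : ℤ) = (((n + 1).choose k * (n + 1 - k) : ℕ) : ℤ) := by
      rw [h]
    push_cast [Nat.cast_sub hj] at h2
    linarith
  · rw [Nat.choose_eq_zero_of_lt hj, Nat.choose_eq_zero_of_lt (by omega)]
    simp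

lemma term (n k : ℕ) :
    ((n : ℤ) + 1) * (((n : ℤ) + 2) ^ 2 * ((n + 2).choose k : ℤ) ^ 3
      - (7 * (n : ℤ) ^ 2 + 21 * n + 16) * ((n + 1).choose k : ℤ) ^ 3
      - 8 * ((n : ℤ) + 1) ^ 2 * (n.choose k : ℤ) ^ 3) = GG n (k + 1) - GG n k := by
  have hn : ((n : ℤ) + 1) ≠ 0 := by positivity
  have hn2 : ((n : ℤ) + 1) ^ 2 ≠ 0 := by positivity
  cases k with
  | zero =>
    simp only [GG, PP, Nat.choose_zero_right]
    push_cast
    ring
  | succ j =>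
    have h1 := rel1 n j
    have h2 := rel2 n (j + 1)
    have h3 : ((n + 2).choose (j + 1) : ℤ) = ((n + 1).choose j : ℤ) + ((n + 1).choose (j + 1) : ℤ) := by
      rw [Nat.choose_succ_succ' (n + 1) j]
      push_cast
      ring
    rw [h3]
    simp only [GG]
    set a : ℤ := ((n + 1).choose (j + 1) : ℤ) with ha
    set b : ℤ := ((n + 1).choose j : ℤ) with hb
    set c : ℤ := (n.choose (j + 1) : ℤ) with hc
    have hj : ((j : ℤ) + 1) ^ 3 ≠ 0 := by positivity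
    have h2' : ((n : ℤ) + 1) * c = ((n : ℤ) - j) * a := by
      rw [h2]; push_cast; ring
    have e2 : (((j : ℤ) + 1) * a) ^ 2 = (((n : ℤ) + 1 - j) * b) ^ 2 := by rw [h1]
    have e3 : (((j : ℤ) + 1) * a) ^ 3 = (((n : ℤ) + 1 - j) * b) ^ 3 := by rw [h1]
    have e4 : (((n : ℤ) + 1) * c) ^ 3 = (((n : ℤ) - j) * a) ^ 3 := by rw [h2']
    apply mul_left_cancel₀ hn2
    apply mul_left_cancel₀ hj
    push_cast
    simp only [PP]
    linear_combination (((n : ℤ) + 1) ^ 3 * (((n : ℤ) + 2) ^ 2 - (7 * (n : ℤ) ^ 2 + 21 * n + 16))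
        - 8 * ((n : ℤ) + 1) ^ 2 * ((n : ℤ) - j) ^ 3
        - ((n : ℤ) + 1) ^ 2 * (-(14 * (n : ℤ) ^ 3 + 74 * (n : ℤ) ^ 2 + 128 * n + 72)
          + (27 * (n : ℤ) ^ 2 + 93 * n + 78) * (j + 2)
          - (18 * (n : ℤ) + 30) * (j + 2) ^ 2 + 4 * ((j : ℤ) + 2) ^ 3)) * e3
      + (3 * ((n : ℤ) + 1) ^ 3 * ((n : ℤ) + 2) ^ 2 * ((j : ℤ) + 1) * b) * e2
      + (3 * ((n : ℤ) + 1) ^ 3 * ((n : ℤ) + 2) ^ 2 * ((j : ℤ) + 1) ^ 2 * b ^ 2) * h1
      - 8 * ((n : ℤ) + 1) ^ 2 * ((j : ℤ) + 1) ^ 3 * e4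

lemma franel_ext (n m : ℕ) (h : n + 1 ≤ m) :
    (franel n : ℤ) = ∑ k ∈ range m, (n.choose k : ℤ) ^ 3 := by
  unfold franel
  push_cast
  refine sum_subset (fun x hx => ?_) (fun x _ hx => ?_)
  · rw [mem_range] at hx ⊢
    omega
  · rw [mem_range, not_lt] at hx
    rw [Nat.choose_eq_zero_of_lt (by omega)]
    simp

lemma franel_rec (n : ℕ) :
    ((n : ℤ) + 2) ^ 2 * (franel (n + 2) : ℤ)
      = (7 * (n : ℤ) ^ 2 + 21 * n + 16) * (franel (n + 1) : ℤ)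
        + 8 * ((n : ℤ) + 1) ^ 2 * (franel n : ℤ) := by
  have hn : ((n : ℤ) + 1) ≠ 0 := by positivity
  have hs : ∑ k ∈ range (n + 3), (((n : ℤ) + 1) * (((n : ℤ) + 2) ^ 2 * ((n + 2).choose k : ℤ) ^ 3
      - (7 * (n : ℤ) ^ 2 + 21 * n + 16) * ((n + 1).choose k : ℤ) ^ 3
      - 8 * ((n : ℤ) + 1) ^ 2 * (n.choose k : ℤ) ^ 3)) = 0 := by
    rw [sum_congr rfl fun k _ => term n k, sum_range_sub]
    simp only [GG]
    rw [Nat.choose_eq_zero_of_lt (by omega)]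
    simp
  rw [← mul_sum] at hs
  have hs2 := (mul_eq_zero.1 hs).resolve_left hn
  rw [sum_sub_distrib, sum_sub_distrib, ← mul_sum, ← mul_sum, ← mul_sum,
    ← franel_ext (n + 2) (n + 3) (by omega), ← franel_ext (n + 1) (n + 3) (by omega),
    ← franel_ext n (n + 3) (by omega)] at hs2
  linarith

lemma cb_rec (n : ℕ) :
    ((n : ℤ) + 1) * ((2 * (n + 1)).choose (n + 1) : ℤ) = 2 * (2 * n + 1) * ((2 * n).choose n : ℤ) := by
  have h := Nat.succ_mul_centralBinom_succ n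
  unfold Nat.centralBinom at h
  exact_mod_cast h

theorem rec : G_REC := by
  intro n
  have h1 := franel_rec n
  have h2 := cb_rec n
  have h3 := cb_rec (n + 1)
  unfold aa q1 q2
  push_cast at h2 h3 ⊢
  have e2 : 2 * (n + 1 + 1) = 2 * (n + 2) := by ring
  rw [show n + 1 + 1 = n + 2 from rfl] at h3
  set c2 : ℤ := ((2 * (n + 2)).choose (n + 2) : ℤ)
  set c1 : ℤ := ((2 * (n + 1)).choose (n + 1) : ℤ)
  set c0 : ℤ := ((2 * n).choose n : ℤ)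
  linear_combination ((n : ℤ) + 2) * c2 * h1
    + ((7 * (n : ℤ) ^ 2 + 21 * n + 16) * (franel (n + 1) : ℤ)
        + 8 * ((n : ℤ) + 1) ^ 2 * (franel n : ℤ)) * h3
    + 16 * (2 * (n : ℤ) + 3) * ((n : ℤ) + 1) * (franel n : ℤ) * h2

end Pool.Agent.Helper43.Fr.PkREC
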