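import Pool.Agent.Helper43.Fr.Goals

/-!
Packet TH of MP_c866d3_nt: the polynomials `Θ0, Θ1` exist.
-/

namespace Pool.Agent.Helper43.Fr.PkTH

open Polynomial Finset

noncomputable section

/-- a family of elements, one for every square root `v` of `q` in every ring -/
abbrev Fam (R : Type) [CommRing R] : Type 1 :=
  ∀ (S : Type) [CommRing S], (R[X] →+* S) → S → S

/-- representable families -/
def Rep {R : Type} [CommRing R] (q : R[X]) (e : Fam R) : Prop :=
  ∃ A B : R[X], ∀ (S : Type) [CommRing S] (φ : R[X] →+* S) (v : S), v ^ 2 = φ q →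
    e S φ v = φ A + φ B * v

variable {R : Type} [CommRing R] {q : R[X]}

lemma rep_const (f : R[X]) : Rep q (fun _ _ φ _ => φ f) :=
  ⟨f, 0, fun S _ φ v _ => by simp⟩

lemma rep_v : Rep q (fun _ _ _ v => v) :=
  ⟨0, 1, fun S _ φ v _ => by simp⟩

lemma rep_add {e1 e2 : Fam R} (h1 : Rep q e1) (h2 : Rep q e2) :
    Rep q (fun S _ φ v => e1 S φ v + e2 S φ v) := by
  obtain ⟨A, B, h1⟩ := h1
  obtain ⟨C, D, h2⟩ := h2
  refine ⟨A + C, B + D, fun S _ φ v hv => ?_⟩
  simp only
  rw [h1 S φ v hv, h2 S φ v hv, map_add, map_add]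
  ring

lemma rep_mul {e1 e2 : Fam R} (h1 : Rep q e1) (h2 : Rep q e2) :
    Rep q (fun S _ φ v => e1 S φ v * e2 S φ v) := by
  obtain ⟨A, B, h1⟩ := h1
  obtain ⟨C, D, h2⟩ := h2
  refine ⟨A * C + B * D * q, A * D + B * C, fun S _ φ v hv => ?_⟩
  simp only
  rw [h1 S φ v hv, h2 S φ v hv, map_add, map_add, map_mul, map_mul, map_mul, map_mul, map_mul,
    ← hv]
  ring

lemma rep_pow {e1 : Fam R} (h1 : Rep q e1) (n : ℕ) :
    Rep q (fun S _ φ v => e1 S φ v ^ n) := by
  induction n with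
  | zero => exact ⟨1, 0, fun S _ φ v _ => by simp⟩
  | succ n ih =>
    have := rep_mul ih h1
    simpa only [pow_succ] using this

lemma rep_sum {ι : Type} (s : Finset ι) (e : ι → Fam R) (h : ∀ i ∈ s, Rep q (e i)) :
    Rep q (fun S _ φ v => ∑ i ∈ s, e i S φ v) := by
  classical
  induction s using Finset.induction_on with
  | empty => exact ⟨0, 0, fun S _ φ v _ => by simp⟩
  | insert a s ha ih =>
    have h1 := h a (mem_insert_self a s)
    have h2 := ih fun i hi => h i (mem_insert_of_mem hi)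
    obtain ⟨A, B, h3⟩ := rep_add h1 h2
    refine ⟨A, B, fun S _ φ v hv => ?_⟩
    simp only
    rw [sum_insert ha]
    exact h3 S φ v hv

lemma rep_congr {e1 e2 : Fam R} (h : Rep q e1)
    (he : ∀ (S : Type) [CommRing S] (φ : R[X] →+* S) (v : S), e1 S φ v = e2 S φ v) :
    Rep q e2 := by
  obtain ⟨A, B, h⟩ := h
  exact ⟨A, B, fun S _ φ v hv => by rw [← he]; exact h S φ v hv⟩

theorem th' : G_TH := by
  intro p _ hp C
  have key : Rep C.q (fun S _ φ v =>
      (C.w : S) ^ ((p - 1) / 2) * (φ C.c0 + φ C.c1 * v) ^ ((p - 1) / 2) *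
      ∑ i ∈ Finset.range p, (aa i : S) * (φ C.x0 + φ C.x1 * v) ^ i *
        (φ C.al) ^ (2 * (p - 1 - i))) := by
    have hw : Rep C.q (fun S _ φ v => (C.w : S) ^ ((p - 1) / 2)) := by
      refine rep_congr (rep_pow (rep_const (C.w : ℤ_[p][X])) ((p - 1) / 2)) fun S _ φ v => ?_
      simp
    have hc : Rep C.q (fun S _ φ v => (φ C.c0 + φ C.c1 * v) ^ ((p - 1) / 2)) :=
      rep_pow (rep_add (rep_const C.c0) (rep_mul (rep_const C.c1) rep_v)) _
    have hs : Rep C.q (fun S _ φ v => ∑ i ∈ Finset.range p, (aa i : S) *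
        (φ C.x0 + φ C.x1 * v) ^ i * (φ C.al) ^ (2 * (p - 1 - i))) := by
      apply rep_sum (Finset.range p) (fun i S _ φ v => (aa i : S) *
        (φ C.x0 + φ C.x1 * v) ^ i * (φ C.al) ^ (2 * (p - 1 - i)))
      intro i _
      have ha : Rep C.q (fun S _ φ v => (aa i : S)) :=
        rep_congr (rep_const ((aa i : ℕ) : ℤ_[p][X])) fun S _ φ v => by simp
      exact rep_mul (rep_mul ha
        (rep_pow (rep_add (rep_const C.x0) (rep_mul (rep_const C.x1) rep_v)) i))
        (rep_pow (rep_const C.al) _)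
    exact rep_mul (rep_mul hw hc) hs
  obtain ⟨A, B, h⟩ := key
  exact ⟨A, B, fun S _ φ v hv => (h S φ v hv).symm⟩

end

end Pool.Agent.Helper43.Fr.PkTH
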